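import Pool.Agent.Helper62.BX.Conc
import Pool.Agent.Helper62.VX.Main
import Pool.Agent.Helper62.HX.Main

/-!
# All families of hyperelliptic curves with big monodromy

Let `K` be a number field, `g ≥ 1`, `r ≥ 0`, `s = (s_1, …, s_r)`, let `F ∈ 𝓞 K [s][t][x]` be monic in `x` of degree
`n = 2 g + 1` or `n = 2 g + 2`, and `φ ∈ 𝓞 K [s][t]` not constant in `t`. We consider the family

  `C_(s, t) : y ^ 2 = F(s, φ(s, t), x)`

of hyperelliptic curves of genus `g` with `r + 1` parameters (`r = 0`: one parameter `t`). Every family of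
hyperelliptic curves over the line has such an equation with `n = 2 g + 2`, up to a twist and the choice of the
coordinate `x`; `n = 2 g + 1` are the families with a rational Weierstrass point. Let `k` be the algebraic closure
of `K(s)`. We make two assumptions.

* (Node) The curve `y ^ 2 = F(s, t, x)` over `k(t)` is smooth, and for some `t₀ ∈ k` the fibre has one node and no
  other singularity: `F(s, t₀, x) = (x - x₀) ^ 2 f₁(x)`, `f₁` squarefree, `f₁(x₀) ≠ 0`. (The local monodromy is a
  transvection. The total space may be singular at the node, and there may be arbitrary other degenerate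
  fibres.)
* (Irr) The Gauss-Manin connection of the family over `k(t)` is irreducible over all algebraic extensions of
  `k(t)`: the representation of the monodromy group on the cohomology of the curves is irreducible, and
  remains irreducible on all subgroups of finite index.

These assumptions mean that the identity component of the monodromy group is the whole symplectic group
and that one fibre has exactly one node: the families with big monodromy of Katz and Sarnak. The cohomology
of the complete curves consists of the forms `u dx / y`: all `u` with `deg u < 2 g` for `n = 2 g + 1`, and for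
`n = 2 g + 2` the `u` with `deg u ≤ 2 g` for which there are no residues at infinity. If `F = G ^ 2 + H`, `G` monic of
degree `g + 1` and `deg H ≤ g` (over a field of characteristic zero there are unique such `G`, `H`), these are the
`u = q G + r`, `deg q, deg r < g`.

**Theorem.** Let `Γ ≠ 0` be a polynomial in `g ^ 2 + 1` variables over `𝓞 K [s]`. Call `v` *good for `(s, t)`* if
`C_(s, t)` has good ordinary reduction at `v` and `Γ(φ(s, t), HW_v(C_(s, t))) ≠ 0` in the residue field. Here
`HW_v` is the Hasse-Witt matrix, with the entries `[x ^ (N v i - j)] F ^ ((N v - 1) / 2)`, `1 ≤ i, j ≤ g`.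

1. For every `ε > 0` and all but finitely many places `v` of prime norm, `v` is not good for at most
   `ε (N v) ^ (r + 1)` of the `(N v) ^ (r + 1)` residue classes of `(s, t)`.
2. For `η > 0`, `0 < θ < 1` there is `A` such that for all `(s, t) ∈ [1, X] ^ (r + 1)` but at most
   `A (X ^ (r + 1) / Q₀ ^ (1 - θ) + X ^ r Q₁ ^ (1 + θ))`, and for ALL `Q` with `Q₀ ≤ Q ≤ Q₁`, the places good for
   `(s, t)` are at least the proportion `1 - η` of ALL places `v` of `K` with `N v ≤ Q`.
3. For `η, δ > 0` there is `C` such that if `X ^ δ Q₀ ≤ Q₁`, then for all `(s, t) ∈ [1, X] ^ (r + 1)` but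
   at most `C X ^ r Q₁` the following holds: for at least the proportion `1 - η` of the scales `Q = 2 ^ j`
   between `Q₀` and `Q₁` the places good for `(s, t)` are at least the proportion `1 - η` of all places of
   norm at most `Q`. With `Q₀ = 1`, `Q₁ = X ^ δ`: all members but `O(X ^ (r + δ))`.

The earlier results on hyperelliptic curves of every genus are for explicit families for which the
Hasse-Witt matrix can be computed at one point (a totally degenerate fibre, a monomial, binomial
coefficients), or for which the connection can be written down (`MovingBranchPoint`,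
`LevelCurvesInFamilies` of this run). Here the family is arbitrary: ordinary reduction of almost all members
follows from the monodromy alone.

## Proof

Let `n = 2 g + 1`. On the forms `u dx / y`, `deg u < 2 g`, the Gauss-Manin connection is computed by
`2 (P_l F + S_l F') = W x ^ l ∂F/∂t`, `W ∇ (x ^ l) = - (P_l + 2 S_l')`, with a common denominator `W`. The matrix
`Q(x, z)` of the polynomial `(2 (F(z) - F(x)) + (x - z) (F'(x) + F'(z))) / (x - z) ^ 2` is a horizontal symplectic
bivector (`W_Hor`; the proof is a computation with syzygies of `F` and `F'`), of constant determinant (`W_QDet`).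
At the node `W` has a simple zero (`V_Loc`), the residue has rank one, and it is `κ Q e eᵀ / μ`, `e = (x₀ ^ l)`,
with `κ` a positive multiple, the thickness of the node, of a unit (`V_Rk`, `W_Qe`). The Hasse-Witt functionals
`x ^ l ↦ [x ^ (p i + p - 1)] x ^ l F ^ ((p - 1) / 2)` are horizontal (`W_HWb`), polynomials in `t` of degree at most
`N p`, independent, and span an isotropic subspace.

The `p`-curvature `ψ` has a pole at `t₀` with the polar part of rank one. In characteristic zero (in an
ultraproduct of the reductions for `p → ∞`) let `X` be the horizontal matrix of power series at `t₀` with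
`X(t₀) = Q e eᵀ`; it has rank one, `X = x ξᵀ`. All linear relations over `k(t)` between the entries of `ψ` are
satisfied by `X` (`W_Van`). The entries of `ξ` are linearly independent over `k(t)`, and only the scalar
matrices commute with `X`: the matrices `θ` commuting with `X` are an algebra without nilpotent elements,
stable under the connection, and the eigenspaces of `θ` over an algebraic extension of `k(t)` are stable
under the connection (`W_Strong`); this is the place where (Irr) is used. These properties do not depend on the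
algebraically closed field (`W_Tr`), so they pass from the generic point of a finitely generated ring `A` to the
ultraproduct of its reductions. So the Lie algebra of the relations of `ψ` is the symplectic one (`W_Con`), the
coordinates of the Lagrangian subspace of the Hasse-Witt functionals are algebraically independent
(`W_Ind`), and the soft Stepanov method gives few zeros (`W_NV`, `W_FewG`): there is a nonzero `a₀ ∈ A` such
that for every reduction `A → k` with `a₀ ≠ 0` to characteristic `p ≥ p₀` at most `ε p` of the `t ∈ F_p` are bad.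
The rest is as in `LevelCurvesInFamilies` (`V_W`, `X_Count`, `X_Sieve`, `X_Most`).

Let `n = 2 g + 2`. On all the forms `u dx / y`, `deg u ≤ 2 g`, the Gauss-Manin connection is reducible: the residue
at infinity is a horizontal functional. Its kernel `V` has the basis
`b = (1, x, …, x ^ (g - 1), G, x G, …, x ^ (g - 1) G)` and is stable (`H_Stab`). In this basis the horizontal bivector
has the blocks `(a - b) H_(a + b + 2)`, `± 2 (a + 1) G_(a + b + 2)` and zero; it is triangular, of constant
determinant (`H_QE`). The Hasse-Witt functionals are horizontal on `V` (`H_HWb`), isotropic (`H_HWiso`) and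
independent (`H_HWrank`: the functional with `i = g + 1` is the residue). At the node the residue of the
connection is `κ Q e eᵀ / μ`, `e = (b_l(x₀))` (`H_Data`, from `H_LocN`, `H_RkN`, `H_HorN`). So `V` has the structure
studied before, and the rest of the proof is the same (`H_FewG`, `H_W`).

The statements of the lemmas are in `Pool/Agent/Helper62/BW/Stm.lean`, `Pool/Agent/Helper62/BX/Stm.lean`,
`Pool/Agent/Helper62/VX/Stm.lean` and `Pool/Agent/Helper62/HX/Stm.lean`; they were proved in Lean by helpers 4,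
12, 13, 15, 18, 31, 36, 38, 41, 59, 61, 62, 68, 72, 82, 90 and 93 after these docstrings.
-/

set_option autoImplicit false

open Polynomial Finset NumberField IsDedekindDomain

namespace Pool.Agent.Results.MP_17d720_ag.BigMonodromyFamilies

section field

variable {k : Type} [Field k]

/-- The derivative with respect to `t` of a polynomial in `t` and `x` (`x` is the outer variable). -/
noncomputable def dt (F : k[X][X]) : k[X][X] := F.sum fun i a => monomial i (derivative a)

/-- The coefficientwise derivation. -/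
noncomputable def dE {E : Type} [Field E] (δ : Derivation ℤ E E) (u : E[X]) : E[X] :=
  u.sum fun i a => monomial i (δ a)

/-- A fibre with one node: `F(t₀, x) = (x - x₀) ^ 2 f₁(x)`, `f₁` squarefree, `f₁(x₀) ≠ 0`. -/
def Node (F : k[X][X]) (t₀ x₀ : k) (f₁ : k[X]) : Prop :=
  F.map (evalRingHom t₀) = (X - C x₀) ^ 2 * f₁ ∧ f₁.Separable ∧ f₁.eval x₀ ≠ 0

/-- A polynomial in `t` and `x` as a polynomial in `x` over an extension `E` of `k(t)`. -/
noncomputable def toE (E : Type) [Field E] [Algebra (FractionRing k[X]) E] (F : k[X][X]) : E[X] :=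
  F.map ((algebraMap (FractionRing k[X]) E).comp (algebraMap k[X] (FractionRing k[X])))

/-- The derivation `δ` of `E` extends `d / dt`. -/
def Extends {E : Type} [Field E] [Algebra (FractionRing k[X]) E] (δ : Derivation ℤ E E) : Prop :=
  ∀ c : k[X], δ (algebraMap (FractionRing k[X]) E (algebraMap k[X] (FractionRing k[X]) c)) =
    algebraMap (FractionRing k[X]) E (algebraMap k[X] (FractionRing k[X]) (derivative c))

/-- The form `u dx / y` on `y ^ 2 = F(x)`, `deg F = 2 g + 2`, `deg u ≤ 2 g`, has no residues at infinity: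
`u = q G + r`, `deg q, deg r < g`, where `F = G ^ 2 + H`, `deg G = g + 1`, `deg H ≤ g`. -/
def NoResidue {E : Type} [Field E] (g : ℕ) (F u : E[X]) : Prop :=
  ∃ G q r : E[X], G.Monic ∧ G.natDegree = g + 1 ∧ (F - G ^ 2).natDegree ≤ g ∧ q.degree < g ∧
    r.degree < g ∧ u = q * G + r

/-- The form `u dx / y` represents an element of the cohomology of the complete curve `y ^ 2 = F(x)`:
`deg F = 2 g + 1` and `deg u < 2 g`, or `deg F = 2 g + 2` and `u dx / y` has no residues at infinity. -/
def SecondKind {E : Type} [Field E] (g : ℕ) (F u : E[X]) : Prop :=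
  (F.natDegree = 2 * g + 1 ∧ u.degree < (2 * g : ℕ)) ∨ (F.natDegree = 2 * g + 2 ∧ NoResidue g F u)

/-- The Gauss-Manin connection on the forms `u dx / y`: one has `∇ u = w` if `w = u' - a / 2 - ∂b / ∂x`,
`a F + b ∂F / ∂x = u ∂F / ∂t`, `deg a < n - 1`, `deg b ≤ n - 1`, `n = deg F`; here `u'` is the coefficientwise
derivative. -/
def Nabla (n : ℕ) (F : k[X][X]) {E : Type} [Field E] [Algebra (FractionRing k[X]) E]
    (δ : Derivation ℤ E E) (u w : E[X]) : Prop :=
  ∃ a b : E[X], a.natDegree < n - 1 ∧ b.natDegree ≤ n - 1 ∧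
    a * toE E F + b * derivative (toE E F) = u * toE E (dt F) ∧
    w = dE δ u - C 2⁻¹ * a - derivative b

/-- The Gauss-Manin connection of the complete curves `y ^ 2 = F(t, x)`, `n = deg F`, is irreducible over all
algebraic extensions `E` of `k(t)`. -/
def Irreducible (g n : ℕ) (F : k[X][X]) : Prop :=
  ∀ (E : Type) [Field E] [Algebra (FractionRing k[X]) E]
    [Algebra.IsAlgebraic (FractionRing k[X]) E] (δ : Derivation ℤ E E), Extends (k := k) δ →
    ∀ W : Submodule E E[X], (∀ u ∈ W, SecondKind g (toE E F) u) →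
    (∀ u ∈ W, ∀ w : E[X], Nabla n F δ u w → w ∈ W) →
    W = ⊥ ∨ ∀ u, SecondKind g (toE E F) u → u ∈ W

end field

/-- The polynomials over `𝓞 K` in the parameters `s_1, …, s_r`. -/
abbrev Par (K : Type) [Field K] [NumberField K] (r : ℕ) : Type := MvPolynomial (Fin r) (𝓞 K)

/-- The algebraic closure of `K(s_1, …, s_r)`. -/
abbrev Clo (K : Type) [Field K] [NumberField K] (r : ℕ) : Type :=
  AlgebraicClosure (FractionRing (Par K r))

variable {K : Type} [Field K] [NumberField K] {r : ℕ}

/-- The family over the algebraic closure of `K(s)`. -/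
noncomputable def gen (F : (Par K r)[X][X]) : (Clo K r)[X][X] :=
  F.map (mapRingHom (algebraMap (Par K r) (Clo K r)))

/-- The family `y ^ 2 = F(s, t, x)`, `F` monic of degree `n`, is smooth, it has a fibre with one node, and it
has big monodromy. -/
def BigMonodromy (g n : ℕ) (F : (Par K r)[X][X]) : Prop :=
  F.Monic ∧ F.natDegree = n ∧
    (F.map (algebraMap (Par K r)[X] (FractionRing (Par K r)[X]))).Separable ∧
    (∃ (t₀ x₀ : Clo K r) (f₁ : (Clo K r)[X]), Node (gen F) t₀ x₀ f₁) ∧ Irreducible g n (gen F)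

/-- The value of a polynomial in the parameters; `u = (s_1, …, s_r, t)`. -/
noncomputable def val (u : Fin (r + 1) → ℕ) : Par K r →+* 𝓞 K :=
  MvPolynomial.eval fun i => (u i.castSucc : 𝓞 K)

/-- The value `φ(s, t)`. -/
noncomputable def phi (φ : (Par K r)[X]) (u : Fin (r + 1) → ℕ) : 𝓞 K :=
  (φ.map (val u)).eval (u (Fin.last r) : 𝓞 K)

/-- The polynomial `F(s, φ(s, t), x)` in `x`. -/
noncomputable def member (F : (Par K r)[X][X]) (φ : (Par K r)[X]) (u : Fin (r + 1) → ℕ) :
    (𝓞 K)[X] :=
  (F.map (mapRingHom (val u))).map (evalRingHom (phi φ u))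

/-- The Hasse-Witt matrix of `y ^ 2 = F` over a field with `q` elements: the entry `(i, j)`,
`1 ≤ i, j ≤ g`, is the coefficient of `x ^ (q i - j)` in `F ^ ((q - 1) / 2)`, written as the coefficient
of `x ^ (q i)` in `x ^ j F ^ ((q - 1) / 2)`. -/
noncomputable def hasseWitt {R : Type} [CommRing R] (q g : ℕ) (F : R[X]) :
    Matrix (Fin g) (Fin g) R :=
  Matrix.of fun i j => (X ^ ((j : ℕ) + 1) * F ^ ((q - 1) / 2)).coeff (q * ((i : ℕ) + 1))

/-- The reduction of a polynomial at `v`. -/
noncomputable def red (v : HeightOneSpectrum (𝓞 K)) (F : (𝓞 K)[X]) :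
    v.asIdeal.ResidueField[X] :=
  F.map (algebraMap (𝓞 K) v.asIdeal.ResidueField)

/-- The curve `y ^ 2 = F(x)` of genus `g`, `F` of degree `n = 2 g + 1` or `2 g + 2`, has good ordinary
reduction at `v`: `v` does not divide `2`, the reduction of `F` has degree `n` and is squarefree, and the
Hasse-Witt matrix is invertible. -/
def GoodOrdinary (g n : ℕ) (F : (𝓞 K)[X]) (v : HeightOneSpectrum (𝓞 K)) : Prop :=
  (2 : 𝓞 K) ∉ v.asIdeal ∧ (red v F).natDegree = n ∧ (red v F).Separable ∧
    (hasseWitt (Ideal.absNorm v.asIdeal) g (red v F)).det ≠ 0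

/-- The value `Γ(z, HW_v(F))` is not zero in the residue field of `v`. Here `Γ` is a polynomial in
`g ^ 2` variables whose coefficients are polynomials in one more variable. -/
def Generic (g : ℕ) (Γ : MvPolynomial (Fin g × Fin g) (𝓞 K)[X]) (z : 𝓞 K) (F : (𝓞 K)[X])
    (v : HeightOneSpectrum (𝓞 K)) : Prop :=
  MvPolynomial.eval₂ ((algebraMap (𝓞 K) v.asIdeal.ResidueField).comp (evalRingHom z))
    (fun w => hasseWitt (Ideal.absNorm v.asIdeal) g (red v F) w.1 w.2) Γ ≠ 0

/-- `v` is good for `u = (s, t)`. -/
def Good (g n : ℕ) (F : (Par K r)[X][X]) (φ : (Par K r)[X])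
    (Γ : MvPolynomial (Fin g × Fin g) (Par K r)[X])
    (v : HeightOneSpectrum (𝓞 K)) (u : Fin (r + 1) → ℕ) : Prop :=
  GoodOrdinary g n (member F φ u) v ∧
    Generic g (MvPolynomial.map (mapRingHom (val u)) Γ) (phi φ u) (member F φ u) v

open Classical in
/-- For every `ε > 0` and all but finitely many `v` of prime norm at most `ε (N v) ^ (r + 1)` classes of
parameters modulo `v` are not good. -/
def FewClasses (Good : HeightOneSpectrum (𝓞 K) → (Fin (r + 1) → ℕ) → Prop) : Prop :=
  ∀ ε : ℝ, 0 < ε → {v : HeightOneSpectrum (𝓞 K) | (Ideal.absNorm v.asIdeal).Prime ∧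
    ε * (Ideal.absNorm v.asIdeal : ℝ) ^ (r + 1) <
      (((Fintype.piFinset fun _ : Fin (r + 1) => range (Ideal.absNorm v.asIdeal)).filter
        fun u => ¬ Good v u).card : ℝ)}.Finite

/-- For almost all parameters the proportion `1 - η` of the places is good, at all scales between `Q₀`
and `Q₁`. -/
def AllScales (Good : HeightOneSpectrum (𝓞 K) → (Fin (r + 1) → ℕ) → Prop) : Prop :=
  ∀ η : ℝ, 0 < η → ∀ θ : ℝ, 0 < θ → θ < 1 → ∃ A : ℝ, ∀ X Q₀ Q₁ : ℕ, 1 ≤ Q₀ →
    ({u : Fin (r + 1) → ℕ | (∀ i, 1 ≤ u i ∧ u i ≤ X) ∧ ∃ Q, Q₀ ≤ Q ∧ Q ≤ Q₁ ∧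
      (Nat.card {v : HeightOneSpectrum (𝓞 K) // Ideal.absNorm v.asIdeal ≤ Q ∧ Good v u} : ℝ) <
      (1 - η) * Nat.card {v : HeightOneSpectrum (𝓞 K) //
        Ideal.absNorm v.asIdeal ≤ Q}}.ncard : ℝ) ≤
    A * ((X : ℝ) ^ (r + 1) * (Q₀ : ℝ) ^ (θ - 1) + (X : ℝ) ^ r * (Q₁ : ℝ) ^ (1 + θ))

/-- For all but few parameters the proportion `1 - η` of the places is good, at the proportion `1 - η` of
the scales `2 ^ j` between `Q₀` and `Q₁`. -/
def MostScales (Good : HeightOneSpectrum (𝓞 K) → (Fin (r + 1) → ℕ) → Prop) : Prop :=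
  ∀ η δ : ℝ, 0 < η → 0 < δ → ∃ C : ℝ, ∀ X Q₀ Q₁ : ℕ, 1 ≤ Q₀ → (X : ℝ) ^ δ * Q₀ ≤ Q₁ →
    ({u : Fin (r + 1) → ℕ | (∀ i, 1 ≤ u i ∧ u i ≤ X) ∧
      (Nat.card {j : ℕ // (Q₀ ≤ 2 ^ j ∧ 2 ^ j ≤ Q₁) ∧
        (1 - η) * Nat.card {v : HeightOneSpectrum (𝓞 K) // Ideal.absNorm v.asIdeal ≤ 2 ^ j} ≤
        (Nat.card {v : HeightOneSpectrum (𝓞 K) // Ideal.absNorm v.asIdeal ≤ 2 ^ j ∧
          Good v u} : ℝ)} : ℝ) <
      (1 - η) * Nat.card {j : ℕ // Q₀ ≤ 2 ^ j ∧ 2 ^ j ≤ Q₁}}.ncard : ℝ) ≤
    C * ((X : ℝ) ^ r * Q₁)

end Pool.Agent.Results.MP_17d720_ag.BigMonodromyFamilies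

open Pool.Agent.Results.MP_17d720_ag.BigMonodromyFamilies

namespace Pool.Agent.Results.MP_17d720_ag.BigMonodromyFamilies

theorem to_irrOdd {k : Type} [Field k] (g : ℕ) (hg : 1 ≤ g) (F : k[X][X]) (hF : F.Monic)
    (hd : F.natDegree = 2 * g + 1) (h : Irreducible g (2 * g + 1) F) :
    Pool.Agent.Helper62.BW.IrrF k g F := by
  intro E _ i2 i3 δ hδ W hW hst
  have hdE : (@toE k _ E _ i2 F).natDegree = 2 * g + 1 := by
    unfold toE
    rw [hF.natDegree_map, hd]
  have key : ∀ u : E[X], SecondKind g (@toE k _ E _ i2 F) u ↔ u ∈ degreeLT E (2 * g) := by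
    intro u
    rw [mem_degreeLT]
    constructor
    · rintro (⟨-, h1⟩ | ⟨h1, -⟩)
      · exact h1
      · omega
    · exact fun h1 => Or.inl ⟨hdE, h1⟩
  rcases @h E _ i2 i3 δ hδ W (fun u hu => (key u).2 (hW hu)) (by
    rintro u hu w ⟨a, b, h1, h2, h3, rfl⟩
    exact hst u hu a b (by omega) (by omega) h3) with h1 | h1
  · exact Or.inl h1
  · exact Or.inr (le_antisymm hW fun u hu => h1 u ((key u).2 hu))

theorem to_irrEven {k : Type} [Field k] [CharZero k] (g : ℕ) (G H : k[X][X]) (hG : G.Monic)
    (hd : G.natDegree = g + 1) (hH : H.natDegree ≤ g) (hF : (G ^ 2 + H).natDegree = 2 * g + 2)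
    (hFm : (G ^ 2 + H).Monic) (h : Irreducible g (2 * g + 2) (G ^ 2 + H)) :
    Pool.Agent.Helper62.HX.IrrE k g G H := by
  intro E _ i2 i3 δ hδ W hW hst
  have hchar : CharZero E :=
    charZero_of_injective_ringHom (algebraMap (Pool.Agent.Helper62.BM.KX k) E).injective
  have hFE : (@toE k _ E _ i2 (G ^ 2 + H)).natDegree = 2 * g + 2 := by
    unfold toE
    rw [hFm.natDegree_map, hF]
  have hGE : (@toE k _ E _ i2 G).Monic := hG.map _
  have hdE : (@toE k _ E _ i2 G).natDegree = g + 1 := by
    unfold toE
    rw [hG.natDegree_map, hd]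
  have hHE : (@toE k _ E _ i2 (G ^ 2 + H) - (@toE k _ E _ i2 G) ^ 2).natDegree ≤ g := by
    unfold toE
    rw [Polynomial.map_add, Polynomial.map_pow, add_sub_cancel_left]
    exact natDegree_map_le.trans hH
  have key : ∀ u : E[X], SecondKind g (@toE k _ E _ i2 (G ^ 2 + H)) u ↔
      u ∈ Submodule.span E (Set.range (Pool.Agent.Helper62.HX.bE g (@toE k _ E _ i2 G))) := by
    intro u
    rw [Pool.Agent.Helper62.HX.mem_span_bE]
    constructor
    · rintro (⟨h1, -⟩ | ⟨-, G', q, r, h1, h2, h3, h4, h5, h6⟩)
      · omega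
      · have h7 : G' = @toE k _ E _ i2 G :=
          Pool.Agent.Helper62.HX.sqrt_unique two_ne_zero (g + 1) (by omega)
            (@toE k _ E _ i2 (G ^ 2 + H)) _ _ hGE h1 hdE h2 (by simpa using hHE)
            (by simpa using h3)
        exact ⟨q, r, h4, h5, by rw [h6, h7]⟩
    · rintro ⟨q, r, h4, h5, h6⟩
      exact Or.inr ⟨hFE, _, q, r, hGE, hdE, hHE, h4, h5, h6⟩
  rcases @h E _ i2 i3 δ hδ W (fun u hu => (key u).2 (hW hu)) (by
    rintro u hu w ⟨a, b, h1, h2, h3, rfl⟩
    exact hst u hu a b (by omega) (by omega) h3) with h1 | h1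
  · exact Or.inl h1
  · exact Or.inr (le_antisymm hW fun u hu => h1 u ((key u).2 hu))

theorem result (K : Type) [Field K] [NumberField K] (r g n : ℕ) (hg : 1 ≤ g)
    (hn : n = 2 * g + 1 ∨ n = 2 * g + 2) (F : (Par K r)[X][X]) (φ : (Par K r)[X])
    (hF : BigMonodromy g n F) (hφ : 1 ≤ φ.natDegree)
    (Γ : MvPolynomial (Fin g × Fin g) (Par K r)[X]) (hΓ : Γ ≠ 0) :
    FewClasses (Good g n F φ Γ) ∧ AllScales (Good g n F φ Γ) ∧ MostScales (Good g n F φ Γ) := by
  obtain ⟨h1, h2, h3, ⟨t₀, x₀, f₁, n1, n2, n3⟩, h4⟩ := hF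
  have hmon : (gen F).Monic := h1.map _
  have hdeg0 : (gen F).natDegree = n := by
    unfold gen
    rw [h1.natDegree_map, h2]
  rcases hn with rfl | rfl
  · exact Pool.Agent.Helper62.BX.conc Pool.Agent.Helper62.BX.xCount
      Pool.Agent.Helper62.BX.xSieve Pool.Agent.Helper62.BX.xMost K r
      (Pool.Agent.Helper62.BX.GoodW g F φ Γ) (Pool.Agent.Helper62.BX.perW g F φ Γ)
      (Pool.Agent.Helper62.VX.vW K r g hg F φ ⟨h1, h2, h3⟩
        ⟨t₀, x₀, f₁, n1, (Polynomial.separable_map _).2 n2, n3⟩
        (to_irrOdd g hg _ hmon hdeg0 h4) hφ Γ hΓ)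
  · obtain ⟨G, hG, hdG, hH⟩ := Pool.Agent.Helper62.HX.sqrt_exists
      (Polynomial.C (2⁻¹ : Clo K r)) (by
        rw [← map_ofNat (Polynomial.C : Clo K r →+* (Clo K r)[X]) 2, ← map_mul,
          mul_inv_cancel₀ two_ne_zero, map_one]) (g + 1) (by omega) (gen F) hmon
      (by rw [hdeg0]; ring)
    have hH' : (gen F - G ^ 2).natDegree ≤ g := by simpa using hH
    have hFG : gen F = G ^ 2 + (gen F - G ^ 2) := by ring
    have hinj : Function.Injective (algebraMap (Par K r) (Clo K r)) := by
      rw [IsScalarTower.algebraMap_eq (Par K r) (FractionRing (Par K r)) (Clo K r)]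
      exact (algebraMap (FractionRing (Par K r)) (Clo K r)).injective.comp
        (IsFractionRing.injective (Par K r) (FractionRing (Par K r)))
    have hGen : Pool.Agent.Helper62.HX.GenE g G (gen F - G ^ 2) := by
      refine ⟨hG, hdG, hH', ?_⟩
      rw [← hFG]
      exact Pool.Agent.Helper62.HX.sep_up _ hinj F h3
    refine Pool.Agent.Helper62.BX.conc Pool.Agent.Helper62.BX.xCount
      Pool.Agent.Helper62.BX.xSieve Pool.Agent.Helper62.BX.xMost K r
      (Pool.Agent.Helper62.HX.GoodE g F φ Γ) (Pool.Agent.Helper62.HX.h_Per K r g F φ Γ)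
      (Pool.Agent.Helper62.HX.hW K r g hg F φ h1 h2 G (gen F - G ^ 2) hFG hGen
        ⟨t₀, x₀, f₁, ?_⟩ ?_ hφ Γ hΓ)
    · rw [← hFG]
      exact ⟨n1, (Polynomial.separable_map _).2 n2, n3⟩
    · refine to_irrEven g G _ hG hdG hH' ?_ ?_ ?_
      · rw [← hFG]
        exact hdeg0
      · rw [← hFG]
        exact hmon
      · rw [← hFG]
        exact h4

end Pool.Agent.Results.MP_17d720_ag.BigMonodromyFamilies
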