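import Pool.Agent.Helper62.BX.Main
import Pool.Agent.Helper62.BX.Conc

/-!
# The hyperelliptic curves `y ^ 2 = f(s, x) - φ(s, t)`

Let `K` be a number field, `g ≥ 1`, `r ≥ 0`, `s = (s_1, …, s_r)`, let `f ∈ 𝓞 K [s][x]` be a polynomial of degree
`2 g + 1` in `x` whose generic member has `2 g` distinct critical points with distinct critical values, and
let `φ ∈ 𝓞 K [s][t]` be a polynomial which is not constant in `t`. We consider the family

  `C_(s, t) : y ^ 2 = f(s, x) - φ(s, t)`

of hyperelliptic curves of genus `g` with `r + 1` parameters. The places of `K` are denoted by `v`, their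
norms by `N v`. The Hasse-Witt matrix of `y ^ 2 = F(x)` at `v` has the entries
`[x ^ (N v i - j)] F ^ ((N v - 1) / 2)`, `1 ≤ i, j ≤ g`; if the reduction is smooth it is invertible if and only
if the reduction is ordinary.

**Theorem.** Let `G ≠ 0` be a polynomial in `g ^ 2 + 1` variables over `𝓞 K [s]`. Call `v` *good for `(s, t)`* if
`C_(s, t)` has good ordinary reduction at `v` and `G(φ(s, t), HW_v(C_(s, t))) ≠ 0` in the residue field.

1. For every `ε > 0` and all but finitely many places `v` of prime norm, `v` is not good for at most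
   `ε (N v) ^ (r + 1)` of the `(N v) ^ (r + 1)` residue classes of `(s, t)`.
2. For `η > 0`, `0 < θ < 1` there is `A` such that for all `(s, t) ∈ [1, X] ^ (r + 1)` but at most
   `A (X ^ (r + 1) / Q₀ ^ (1 - θ) + X ^ r Q₁ ^ (1 + θ))`, and for ALL `Q` with `Q₀ ≤ Q ≤ Q₁`, the places good for
   `(s, t)` are at least the proportion `1 - η` of ALL places `v` of `K` with `N v ≤ Q`.
3. For `η, δ > 0` there is `C` such that if `X ^ δ Q₀ ≤ Q₁`, then for all `(s, t) ∈ [1, X] ^ (r + 1)` but
   at most `C X ^ r Q₁` the following holds: for at least the proportion `1 - η` of the scales `Q = 2 ^ j`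
   between `Q₀` and `Q₁` the places good for `(s, t)` are at least the proportion `1 - η` of all places of
   norm at most `Q`. With `Q₀ = 1`, `Q₁ = X ^ δ`: all members but `O(X ^ (r + δ))`.

The hypothesis on `f` holds whenever the coefficient of `x` is a parameter which does not occur in the other
coefficients (the second part of the theorem). So the theorem applies to the curves

  `y ^ 2 = h(x) + s x + t`

for EVERY polynomial `h` of degree `2 g + 1` with coefficients in `𝓞 K`, or in a ring of polynomials in other
parameters.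

## Earlier results

For `r = 0` this is the curve `y ^ 2 = f(x) - φ(t)`, `f` with distinct critical values (handed in before as
`LevelCurves`, now replaced by this file). The library of this pool has the families of hyperelliptic curves
with at least `g` parameters at certain monomials (`DensityOne`), and a positive proportion of the places for
`y ^ 2 = f(x) - t` (`AlmostAllMembers`, `HyperellipticFamilies`).

## Proof

The soft Stepanov method, the Hasse-Witt functionals and the ultraproducts are as for the curves
`y ^ 2 = (x - φ(t)) f(x)`, see `Pool/Agent/Results/MP_17d720_ag/MovingBranchPoint.lean`. New is the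
monodromy. Let `c_j` be the critical points of `f`, `v_j = f(c_j)`, `b_j = f' / (x - c_j)`. On the forms
`u(x) dx / y`, `deg u < 2 g`, the Gauss-Manin connection in the basis `b_j` is
`∇ = d / dt + Q diag (κ_j / (t - v_j))` with a CONSTANT symplectic matrix `Q`, all of whose entries outside
the diagonal are different from zero because the critical values are distinct, and constants
`κ_j ≠ 0`: there are `2 g` singular points with unipotent local monodromy, and at infinity the
eigenvalues `(l + 1) / (2 g + 1) - 1 / 2`. The `p`-curvature `ψ` has rank greater than one in general;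
but at `v_j` it has a pole with the polar part `N_j = κ_j Q e_j e_jᵀ`, of rank one (`L_Res`).

In characteristic zero (the ultraproduct) let `X_j` be the horizontal matrix of power series at
`v_j` with `X_j(v_j) = Q e_j e_jᵀ`; it has rank one. All linear relations over `k = Ĉ(t)` of the entries
of `ψ` are satisfied by `X_j`: the relations are a module over `Ĉ[t]` with a connection with
nilpotent residue, and if a horizontal functional (the value at `X_j`) vanishes in the fibre at `v_j`,
it vanishes (`L_Van`). No vector over `k` is killed by `X_j`, because the connection is irreducible: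
a stable isotropic subspace would have no singularities and so would have horizontal vectors, a
stable subspace and its orthogonal complement give a horizontal projector, which must be constant
and scalar (`L_HS`, `L_LI`). Only scalar matrices over `k` commute with `X_j` (`L_Comm`). So the
Lie algebra of `X_j`, and therefore that of `ψ`, is the whole symplectic Lie algebra (`L_Con`, with the
theorem `S_Lie` on Lie algebras with an element of rank one). Then the coordinates of the matrix of
the Hasse-Witt functionals are algebraically independent (`L_Ind`); that the Hasse-Witt matrix is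
generically invertible is a consequence (`L_Lagr`): a Lagrangian subspace with the relations of the
symplectic group is transversal to every fixed one.

This gives (`L_FewG`) for an arbitrary domain `A` of characteristic zero and the family over `A[t]` a
nonzero `a₀ ∈ A` such that for every reduction `A → k` with `a₀ ≠ 0` to characteristic `p ≥ p₀` at most `ε p` of
the `t ∈ F_p` are bad. Take for `A` the ring generated over `𝓞 K [s]` by the critical points: outside a
hypersurface `c(s) = 0` (theorem of Chevalley, `X_Spread`, `X_L`) few `t` are bad, uniformly in `s`, and the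
theorem of Schwartz and Zippel gives (1). (2) and (3) follow by sieves; for (3) a larger sieve with uniform
constants on every line `s = const`, where the places dividing `c(s)` are left out (`X_LS`, `X_Most`). The last
part: with `D = ∂ / ∂s_(r+1)` one has `D(f(a)) = a` for every critical point `a` (`X_Free`).

The statements of the lemmas are in `Pool/Agent/Helper62/BM/LStm.lean` and
`Pool/Agent/Helper62/BX/Stm.lean`; they were proved in Lean by helpers 4, 12, 13, 15, 18, 36, 38, 41, 61,
62, 68, 72, 82 and 90 after these docstrings.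
-/

set_option autoImplicit false

open Polynomial Finset NumberField IsDedekindDomain

namespace Pool.Agent.Results.MP_17d720_ag.LevelCurvesInFamilies

/-- The polynomials over `𝓞 K` in the parameters `s_1, …, s_r`. -/
abbrev Par (K : Type) [Field K] [NumberField K] (r : ℕ) : Type := MvPolynomial (Fin r) (𝓞 K)

variable {K : Type} [Field K] [NumberField K] {r : ℕ}

/-- The value of a polynomial in the parameters; `u = (s_1, …, s_r, t)`. -/
noncomputable def val (u : Fin (r + 1) → ℕ) : Par K r →+* 𝓞 K :=
  MvPolynomial.eval fun i => (u i.castSucc : 𝓞 K)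

/-- The value `φ(s, t)`. -/
noncomputable def phi (φ : (Par K r)[X]) (u : Fin (r + 1) → ℕ) : 𝓞 K :=
  (φ.map (val u)).eval (u (Fin.last r) : 𝓞 K)

/-- The polynomial `f(s, x) - φ(s, t)` in `x`. -/
noncomputable def member (f φ : (Par K r)[X]) (u : Fin (r + 1) → ℕ) : (𝓞 K)[X] :=
  f.map (val u) - C (phi φ u)

/-- The Hasse-Witt matrix of `y ^ 2 = F` over a field with `q` elements: the entry `(i, j)`,
`1 ≤ i, j ≤ g`, is the coefficient of `x ^ (q i - j)` in `F ^ ((q - 1) / 2)`, written as the coefficient
of `x ^ (q i)` in `x ^ j F ^ ((q - 1) / 2)`. -/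
noncomputable def hasseWitt {R : Type} [CommRing R] (q g : ℕ) (F : R[X]) :
    Matrix (Fin g) (Fin g) R :=
  Matrix.of fun i j => (X ^ ((j : ℕ) + 1) * F ^ ((q - 1) / 2)).coeff (q * ((i : ℕ) + 1))

/-- The reduction of a polynomial at `v`. -/
noncomputable def red (v : HeightOneSpectrum (𝓞 K)) (F : (𝓞 K)[X]) :
    v.asIdeal.ResidueField[X] :=
  F.map (algebraMap (𝓞 K) v.asIdeal.ResidueField)

/-- The curve `y ^ 2 = F(x)` of genus `g`, `F` of degree `2 g + 1`, has good ordinary reduction at
`v`: `v` does not divide `2`, the reduction of `F` has degree `2 g + 1` and is squarefree, and the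
Hasse-Witt matrix is invertible. -/
def GoodOrdinary (g : ℕ) (F : (𝓞 K)[X]) (v : HeightOneSpectrum (𝓞 K)) : Prop :=
  (2 : 𝓞 K) ∉ v.asIdeal ∧ (red v F).natDegree = 2 * g + 1 ∧ (red v F).Separable ∧
    (hasseWitt (Ideal.absNorm v.asIdeal) g (red v F)).det ≠ 0

/-- The value `G(z, HW_v(F))` is not zero in the residue field of `v`. Here `G` is a polynomial in
`g ^ 2` variables whose coefficients are polynomials in one more variable. -/
def Generic (g : ℕ) (G : MvPolynomial (Fin g × Fin g) (𝓞 K)[X]) (z : 𝓞 K) (F : (𝓞 K)[X])
    (v : HeightOneSpectrum (𝓞 K)) : Prop :=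
  MvPolynomial.eval₂ ((algebraMap (𝓞 K) v.asIdeal.ResidueField).comp (evalRingHom z))
    (fun w => hasseWitt (Ideal.absNorm v.asIdeal) g (red v F) w.1 w.2) G ≠ 0

/-- `v` is good for `u = (s, t)`. -/
def Good (g : ℕ) (f φ : (Par K r)[X]) (G : MvPolynomial (Fin g × Fin g) (Par K r)[X])
    (v : HeightOneSpectrum (𝓞 K)) (u : Fin (r + 1) → ℕ) : Prop :=
  GoodOrdinary g (member f φ u) v ∧
    Generic g (MvPolynomial.map (mapRingHom (val u)) G) (phi φ u) (member f φ u) v

/-- The algebraic closure of `K(s_1, …, s_r)`. -/
abbrev Clo (K : Type) [Field K] [NumberField K] (r : ℕ) : Type :=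
  AlgebraicClosure (FractionRing (Par K r))

/-- The generic member over the algebraic closure of `K(s)`. -/
noncomputable def gen (f : (Par K r)[X]) : (Clo K r)[X] :=
  f.map (algebraMap (Par K r) (Clo K r))

/-- The derivative of `f` is squarefree, and `f` has distinct values at its zeros. -/
def Morse {k : Type} [Field k] (f : k[X]) : Prop :=
  (derivative f).Separable ∧ ∀ a b : k, (derivative f).eval a = 0 → (derivative f).eval b = 0 →
    f.eval a = f.eval b → a = b

/-- The polynomial `h(s_1, …, s_r, x) + s_(r+1) x`. -/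
noncomputable def addLinear (h : (Par K r)[X]) : (Par K (r + 1))[X] :=
  h.map (MvPolynomial.rename Fin.castSucc).toRingHom +
    Polynomial.C (MvPolynomial.X (Fin.last r)) * X

open Classical in
/-- For every `ε > 0` and all but finitely many `v` of prime norm at most `ε (N v) ^ (r + 1)` classes of
parameters modulo `v` are not good. -/
def FewClasses (Good : HeightOneSpectrum (𝓞 K) → (Fin (r + 1) → ℕ) → Prop) : Prop :=
  ∀ ε : ℝ, 0 < ε → {v : HeightOneSpectrum (𝓞 K) | (Ideal.absNorm v.asIdeal).Prime ∧
    ε * (Ideal.absNorm v.asIdeal : ℝ) ^ (r + 1) <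
      (((Fintype.piFinset fun _ : Fin (r + 1) => range (Ideal.absNorm v.asIdeal)).filter
        fun u => ¬ Good v u).card : ℝ)}.Finite

/-- For almost all parameters the proportion `1 - η` of the places is good, at all scales between `Q₀`
and `Q₁`. -/
def AllScales (Good : HeightOneSpectrum (𝓞 K) → (Fin (r + 1) → ℕ) → Prop) : Prop :=
  ∀ η : ℝ, 0 < η → ∀ θ : ℝ, 0 < θ → θ < 1 → ∃ A : ℝ, ∀ X Q₀ Q₁ : ℕ, 1 ≤ Q₀ →
    ({u : Fin (r + 1) → ℕ | (∀ i, 1 ≤ u i ∧ u i ≤ X) ∧ ∃ Q, Q₀ ≤ Q ∧ Q ≤ Q₁ ∧
      (Nat.card {v : HeightOneSpectrum (𝓞 K) // Ideal.absNorm v.asIdeal ≤ Q ∧ Good v u} : ℝ) <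
      (1 - η) * Nat.card {v : HeightOneSpectrum (𝓞 K) //
        Ideal.absNorm v.asIdeal ≤ Q}}.ncard : ℝ) ≤
    A * ((X : ℝ) ^ (r + 1) * (Q₀ : ℝ) ^ (θ - 1) + (X : ℝ) ^ r * (Q₁ : ℝ) ^ (1 + θ))

/-- For all but few parameters the proportion `1 - η` of the places is good, at the proportion `1 - η` of
the scales `2 ^ j` between `Q₀` and `Q₁`. -/
def MostScales (Good : HeightOneSpectrum (𝓞 K) → (Fin (r + 1) → ℕ) → Prop) : Prop :=
  ∀ η δ : ℝ, 0 < η → 0 < δ → ∃ C : ℝ, ∀ X Q₀ Q₁ : ℕ, 1 ≤ Q₀ → (X : ℝ) ^ δ * Q₀ ≤ Q₁ →
    ({u : Fin (r + 1) → ℕ | (∀ i, 1 ≤ u i ∧ u i ≤ X) ∧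
      (Nat.card {j : ℕ // (Q₀ ≤ 2 ^ j ∧ 2 ^ j ≤ Q₁) ∧
        (1 - η) * Nat.card {v : HeightOneSpectrum (𝓞 K) // Ideal.absNorm v.asIdeal ≤ 2 ^ j} ≤
        (Nat.card {v : HeightOneSpectrum (𝓞 K) // Ideal.absNorm v.asIdeal ≤ 2 ^ j ∧
          Good v u} : ℝ)} : ℝ) <
      (1 - η) * Nat.card {j : ℕ // Q₀ ≤ 2 ^ j ∧ 2 ^ j ≤ Q₁}}.ncard : ℝ) ≤
    C * ((X : ℝ) ^ r * Q₁)

end Pool.Agent.Results.MP_17d720_ag.LevelCurvesInFamilies

open Pool.Agent.Results.MP_17d720_ag.LevelCurvesInFamilies

namespace Pool.Agent.Results.MP_17d720_ag.LevelCurvesInFamilies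

theorem morse_iff {K : Type} [Field K] [NumberField K] {r : ℕ} (f : (Par K r)[X]) :
    Morse (gen f) ↔
    ((derivative f).map (algebraMap (Par K r) (FractionRing (Par K r)))).Separable ∧
    ∀ a b : Clo K r, aeval a (derivative f) = 0 →
      aeval b (derivative f) = 0 → aeval a f = aeval b f → a = b := by
  have h1 : derivative (gen f) = ((derivative f).map
      (algebraMap (Par K r) (FractionRing (Par K r)))).map
        (algebraMap (FractionRing (Par K r)) (Clo K r)) := by
    unfold gen
    rw [derivative_map, Polynomial.map_map, ← IsScalarTower.algebraMap_eq]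
  have h2 : ∀ a : Clo K r, (derivative (gen f)).eval a = aeval a (derivative f) := by
    intro a
    unfold gen
    rw [derivative_map, aeval_def, eval₂_eq_eval_map]
  have h3 : ∀ a : Clo K r, (gen f).eval a = aeval a f := by
    intro a
    unfold gen
    rw [aeval_def, eval₂_eq_eval_map]
  unfold Morse
  simp only [h2, h3]
  rw [h1, Polynomial.separable_map]

theorem result (K : Type) [Field K] [NumberField K] (r g : ℕ) (hg : 1 ≤ g) :
    (∀ f φ : (Par K r)[X], f.natDegree = 2 * g + 1 → Morse (gen f) → 1 ≤ φ.natDegree →
      ∀ G : MvPolynomial (Fin g × Fin g) (Par K r)[X], G ≠ 0 →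
      FewClasses (Good g f φ G) ∧ AllScales (Good g f φ G) ∧ MostScales (Good g f φ G)) ∧
    (∀ h : (Par K r)[X], h.natDegree = 2 * g + 1 →
      (addLinear h).natDegree = 2 * g + 1 ∧ Morse (gen (addLinear h))) := by
  refine ⟨fun f φ hd hf hφ G hG => ?_, fun h hh => ?_⟩
  · have hf' := (morse_iff f).1 hf
    exact Pool.Agent.Helper62.BX.conc Pool.Agent.Helper62.BX.xCount
      Pool.Agent.Helper62.BX.xSieve Pool.Agent.Helper62.BX.xMost K r
      (Pool.Agent.Helper62.BX.GoodL g f φ G) (Pool.Agent.Helper62.BX.perL g f φ G)
      (Pool.Agent.Helper62.BX.xL K r g hg f φ hd hf'.1 hf'.2 hφ G hG)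
  · have h1 := Pool.Agent.Helper62.BX.xFree K r g hg h (addLinear h) hh rfl
    exact ⟨h1.1, (morse_iff _).2 h1.2⟩

end Pool.Agent.Results.MP_17d720_ag.LevelCurvesInFamilies
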