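import Pool.Agent.Helper62.BX.MainB

/-!
# Hyperelliptic curves with one moving branch point

Let `K` be a number field, `g ≥ 1`, `r ≥ 0`, `s = (s_1, …, s_r)`, let `f ∈ 𝓞 K [s][x]` be ANY polynomial of degree
`2 g` in `x` which is squarefree over `K(s)`, and `φ ∈ 𝓞 K [s][t]` a polynomial which is not constant in `t`. We
consider the family

  `C_(s, t) : y ^ 2 = (x - φ(s, t)) f(s, x)`

of hyperelliptic curves of genus `g` with `r + 1` parameters. The places of `K` are denoted by `v`, their
norms by `N v`. The Hasse-Witt matrix of `y ^ 2 = F(x)` at `v` has the entries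
`[x ^ (N v i - j)] F ^ ((N v - 1) / 2)`, `1 ≤ i, j ≤ g`; if the reduction is smooth it is invertible if and only
if the reduction is ordinary.

**Theorem.** Let `G ≠ 0` be a polynomial in `g ^ 2 + 1` variables over `𝓞 K [s]`. Call `v` *good for `(s, t)`* if
`C_(s, t)` has good ordinary reduction at `v` and `G(φ(s, t), HW_v(C_(s, t))) ≠ 0` in the residue field.

1. For every `ε > 0` and all but finitely many places `v` of prime norm, `v` is not good for at most
   `ε (N v) ^ (r + 1)` of the `(N v) ^ (r + 1)` residue classes of `(s, t)`.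
2. For `η > 0`, `0 < θ < 1` there is `A` such that for all `(s, t) ∈ [1, X] ^ (r + 1)` but at most
   `A (X ^ (r + 1) / Q₀ ^ (1 - θ) + X ^ r Q₁ ^ (1 + θ))`, and for ALL `Q` with `Q₀ ≤ Q ≤ Q₁`, the places good for
   `(s, t)` are at least the proportion `1 - η` of ALL places `v` of `K` with `N v ≤ Q`.
3. For `η, δ > 0` there is `C` such that if `X ^ δ Q₀ ≤ Q₁`, then for all `(s, t) ∈ [1, X] ^ (r + 1)` but
   at most `C X ^ r Q₁` the following holds: for at least the proportion `1 - η` of the scales `Q = 2 ^ j`
   between `Q₀` and `Q₁` the places good for `(s, t)` are at least the proportion `1 - η` of all places of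
   norm at most `Q`. With `Q₀ = 1`, `Q₁ = X ^ δ`: all members but `O(X ^ (r + δ))`.

For example `y ^ 2 = (x - t) f(x)` for every fixed squarefree `f`, or `y ^ 2 = (x - t)(x - s) h(x)`, or the family
of all curves `y ^ 2 = ∏ (x - s_i)` of genus `g`.

With `G = 1` this is a statement on ordinary reduction. In general it says that the whole Hasse-Witt
matrix is generic for almost all members: the determinant, the trace, all the entries and minors,
the discriminant of the characteristic polynomial and so on are all nonzero; the coefficients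
modulo `p` of the zeta function of the members avoid every given hypersurface.

For `g = 1`, and for `g = 2` and `G = 1`, part 1 follows from known results (Deuring; the
equidistribution theorem of Deligne and Katz-Sarnak, because `a_2 / p` is then an integer between
`- 2` and `6`). For `g ≥ 3` the condition of ordinarity is not visible in the complex or `ℓ`-adic
distribution of the Frobenius elements, and the trivial bound for the number of the `t` modulo `v`
which are not ordinary is the degree `g (N v - 1) / 2` of the Hasse invariant.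

The families treated before (`ArrangementPencils` in the library of this pool, by periods) have a
totally degenerate member, `y ^ 2 = h(x) ^ 2 + t g(x, t)`; here `f` is arbitrary, all the degenerate
members `t = a_j` have only one node and the Gauss-Manin local system is the full symplectic one.
For this family it was only known that a positive proportion (`OrdinaryInFamilies`) of the members
has the property for a positive proportion of the places. (The case `r = 0` was handed in before under
the same name.)

## Proof

**Soft Stepanov method.** (`Helper4/BM/Step.lean`, after the library.) Let `p` be a prime and let `Z` be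
polynomials in `t` over a field of characteristic `p`, of degree `O(p)`, which are solutions of a
linear differential equation with coefficients of bounded degree, and which are fixed polynomials in
functions `S`. If the functions `S` satisfy no polynomial relation of bounded degree with
coefficients which are polynomials of bounded degree in `t` and `t ^ p`, then `Z` has at most `ε p`
zeros in `F_p`, for `p` large.

**Hasse-Witt functionals.** The functionals `Λ_i : u ↦ [x ^ (p i - 1)] (u h ^ ((p - 1) / 2))`,
`h = (x - t) f`, on `V = {u : deg u < 2 g}` are horizontal for the Gauss-Manin connection and span an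
isotropic subspace (`Helper18/BM/HW.lean`). Their matrix is `Y = (Y₁, Y₂)`, `Y₁` is the Hasse-Witt
matrix. It has the coordinates `Y₁` and the symmetric matrix `S = Y₁⁻¹ Y₂ Q₁₂ᵀ - Q₁₁ / 2`. So it
suffices to prove that the entries of `Y₁` and the entries `i ≤ j` of `S` satisfy no relation of
bounded degree (`S_NV2`).

**Ultraproducts.** Otherwise there are counterexamples for infinitely many `p`; let `k = Ĉ(X)`,
where `Ĉ` is the ultraproduct of the fields `C_i(T)`, a field of characteristic zero. It has two
embeddings which commute with `d / dX`: in the ultraproduct `L` of the fields `C_i(T)(X)` (`T` a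
free variable), where the `p`-curvature `ψ` of the Gauss-Manin connection lives, and, with
`T ↦ X ^ p`, in the ultraproduct `L'` of the fields `C_i(X)`, where `Y` lives.

**The `p`-curvature** `ψ = ∇ ^ p` has rank one (`Helper68/BM/Rank.lean`). At `X = a_l` the connection
has a nilpotent residue `N_l ≠ 0`. From `(X - a_l) ^ p ∇ ^ p = δ ^ p - δ`, `δ = (X - a_l) ∇`, we see that a
vector of polynomials of small degree which is killed by `ψ` is divisible by `X - a_l` in the
coordinate `l`; so its derivative is again a vector of polynomials, of smaller degree, and by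
induction it is zero (`Helper34/BM/LI.lean`, `Helper36/BM/Res.lean`). Similarly only the scalar
matrices of small degree commute with `ψ` (`Helper34/BM/Comm.lean`).

**Internal iteration.** A finite dimensional subspace of a vector space with a connection over `L`
which is stable under `∇` is stable under the internal power `∇ ^ p`: lift a basis and the
coefficients to sequences (`Helper90/BM/DPM.lean`, `DPP.lean`). Therefore the matrices
`A` over `k` which satisfy all the linear relations over `k` of `ψ` are a Lie algebra over `k`. It is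
irreducible and contains over `L` an element of rank one; with Cartan's criterion and the density
theorem it is the whole symplectic Lie algebra (`Helper15/BM/Lie.lean`, `Helper61/BM/ConB.lean`).
Also the ideal of the relations of `Y` over `k` is stable under `d / dX`, so after extension of
scalars to `L` under the internal power of `d / dX`, which is the derivation `Y ↦ Y ψ`; so it is
stable under `Y ↦ Y A` for all `A` in the symplectic Lie algebra (`Helper13/BM`). The coordinates `Y₁, S` of
a matrix `Y` with this property are algebraically independent over `k`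
(`Helper13/BM/Chart2.lean`).

**Several parameters.** The above gives (`S_FewG`) for an arbitrary domain `A` of characteristic zero
and the family over `A[t]` a nonzero `a₀ ∈ A` such that for every reduction `A → k` with `a₀ ≠ 0` to
characteristic `p ≥ p₀` at most `ε p` of the `t ∈ F_p` are bad. Take for `A` the ring generated over `𝓞 K [s]` by
the roots of `f` (`Helper18/BX/XB.lean`): outside a hypersurface `c(s) = 0` (theorem of Chevalley, `X_Spread`)
few `t` are bad, uniformly in `s`, and the theorem of Schwartz and Zippel gives (1). (2) and (3) follow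
by sieves; for (3) a larger sieve with uniform constants on every line `s = const`, where the places
dividing `c(s)` are left out (`X_LS`, `X_Most`).

The statements of all the lemmas are in `Pool/Agent/Helper62/BM/Stm.lean`, `Stm2.lean`, `Stm3.lean`,
`Stm4.lean` and `Pool/Agent/Helper62/BX/Stm.lean`, `Stm2.lean`; they were proved in Lean by helpers 4,
12, 13, 15, 18, 34, 36, 61, 62, 68, 72, 82 and 90 after these docstrings.
-/

set_option autoImplicit false

open Polynomial Finset NumberField IsDedekindDomain

namespace Pool.Agent.Results.MP_17d720_ag.MovingBranchPoint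

/-- The polynomials over `𝓞 K` in the parameters `s_1, …, s_r`. -/
abbrev Par (K : Type) [Field K] [NumberField K] (r : ℕ) : Type := MvPolynomial (Fin r) (𝓞 K)

variable {K : Type} [Field K] [NumberField K] {r : ℕ}

/-- The value of a polynomial in the parameters; `u = (s_1, …, s_r, t)`. -/
noncomputable def val (u : Fin (r + 1) → ℕ) : Par K r →+* 𝓞 K :=
  MvPolynomial.eval fun i => (u i.castSucc : 𝓞 K)

/-- The value `φ(s, t)`. -/
noncomputable def phi (φ : (Par K r)[X]) (u : Fin (r + 1) → ℕ) : 𝓞 K :=
  (φ.map (val u)).eval (u (Fin.last r) : 𝓞 K)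

/-- The polynomial `(x - φ(s, t)) f(s, x)` in `x`. -/
noncomputable def member (f φ : (Par K r)[X]) (u : Fin (r + 1) → ℕ) : (𝓞 K)[X] :=
  (X - C (phi φ u)) * f.map (val u)

/-- The Hasse-Witt matrix of `y ^ 2 = F` over a field with `q` elements: the entry `(i, j)`,
`1 ≤ i, j ≤ g`, is the coefficient of `x ^ (q i - j)` in `F ^ ((q - 1) / 2)`, written as the coefficient
of `x ^ (q i)` in `x ^ j F ^ ((q - 1) / 2)`. -/
noncomputable def hasseWitt {R : Type} [CommRing R] (q g : ℕ) (F : R[X]) :
    Matrix (Fin g) (Fin g) R :=
  Matrix.of fun i j => (X ^ ((j : ℕ) + 1) * F ^ ((q - 1) / 2)).coeff (q * ((i : ℕ) + 1))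

/-- The reduction of a polynomial at `v`. -/
noncomputable def red (v : HeightOneSpectrum (𝓞 K)) (F : (𝓞 K)[X]) :
    v.asIdeal.ResidueField[X] :=
  F.map (algebraMap (𝓞 K) v.asIdeal.ResidueField)

/-- The curve `y ^ 2 = F(x)` of genus `g`, `F` of degree `2 g + 1`, has good ordinary reduction at
`v`: `v` does not divide `2`, the reduction of `F` has degree `2 g + 1` and is squarefree, and the
Hasse-Witt matrix is invertible. -/
def GoodOrdinary (g : ℕ) (F : (𝓞 K)[X]) (v : HeightOneSpectrum (𝓞 K)) : Prop :=
  (2 : 𝓞 K) ∉ v.asIdeal ∧ (red v F).natDegree = 2 * g + 1 ∧ (red v F).Separable ∧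
    (hasseWitt (Ideal.absNorm v.asIdeal) g (red v F)).det ≠ 0

/-- The value `G(z, HW_v(F))` is not zero in the residue field of `v`. Here `G` is a polynomial in
`g ^ 2` variables whose coefficients are polynomials in one more variable. -/
def Generic (g : ℕ) (G : MvPolynomial (Fin g × Fin g) (𝓞 K)[X]) (z : 𝓞 K) (F : (𝓞 K)[X])
    (v : HeightOneSpectrum (𝓞 K)) : Prop :=
  MvPolynomial.eval₂ ((algebraMap (𝓞 K) v.asIdeal.ResidueField).comp (evalRingHom z))
    (fun w => hasseWitt (Ideal.absNorm v.asIdeal) g (red v F) w.1 w.2) G ≠ 0

/-- `v` is good for `u = (s, t)`. -/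
def Good (g : ℕ) (f φ : (Par K r)[X]) (G : MvPolynomial (Fin g × Fin g) (Par K r)[X])
    (v : HeightOneSpectrum (𝓞 K)) (u : Fin (r + 1) → ℕ) : Prop :=
  GoodOrdinary g (member f φ u) v ∧
    Generic g (MvPolynomial.map (mapRingHom (val u)) G) (phi φ u) (member f φ u) v

open Classical in
/-- For every `ε > 0` and all but finitely many `v` of prime norm at most `ε (N v) ^ (r + 1)` classes of
parameters modulo `v` are not good. -/
def FewClasses (Good : HeightOneSpectrum (𝓞 K) → (Fin (r + 1) → ℕ) → Prop) : Prop :=
  ∀ ε : ℝ, 0 < ε → {v : HeightOneSpectrum (𝓞 K) | (Ideal.absNorm v.asIdeal).Prime ∧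
    ε * (Ideal.absNorm v.asIdeal : ℝ) ^ (r + 1) <
      (((Fintype.piFinset fun _ : Fin (r + 1) => range (Ideal.absNorm v.asIdeal)).filter
        fun u => ¬ Good v u).card : ℝ)}.Finite

/-- For almost all parameters the proportion `1 - η` of the places is good, at all scales between `Q₀`
and `Q₁`. -/
def AllScales (Good : HeightOneSpectrum (𝓞 K) → (Fin (r + 1) → ℕ) → Prop) : Prop :=
  ∀ η : ℝ, 0 < η → ∀ θ : ℝ, 0 < θ → θ < 1 → ∃ A : ℝ, ∀ X Q₀ Q₁ : ℕ, 1 ≤ Q₀ →
    ({u : Fin (r + 1) → ℕ | (∀ i, 1 ≤ u i ∧ u i ≤ X) ∧ ∃ Q, Q₀ ≤ Q ∧ Q ≤ Q₁ ∧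
      (Nat.card {v : HeightOneSpectrum (𝓞 K) // Ideal.absNorm v.asIdeal ≤ Q ∧ Good v u} : ℝ) <
      (1 - η) * Nat.card {v : HeightOneSpectrum (𝓞 K) //
        Ideal.absNorm v.asIdeal ≤ Q}}.ncard : ℝ) ≤
    A * ((X : ℝ) ^ (r + 1) * (Q₀ : ℝ) ^ (θ - 1) + (X : ℝ) ^ r * (Q₁ : ℝ) ^ (1 + θ))

/-- For all but few parameters the proportion `1 - η` of the places is good, at the proportion `1 - η` of
the scales `2 ^ j` between `Q₀` and `Q₁`. -/
def MostScales (Good : HeightOneSpectrum (𝓞 K) → (Fin (r + 1) → ℕ) → Prop) : Prop :=
  ∀ η δ : ℝ, 0 < η → 0 < δ → ∃ C : ℝ, ∀ X Q₀ Q₁ : ℕ, 1 ≤ Q₀ → (X : ℝ) ^ δ * Q₀ ≤ Q₁ →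
    ({u : Fin (r + 1) → ℕ | (∀ i, 1 ≤ u i ∧ u i ≤ X) ∧
      (Nat.card {j : ℕ // (Q₀ ≤ 2 ^ j ∧ 2 ^ j ≤ Q₁) ∧
        (1 - η) * Nat.card {v : HeightOneSpectrum (𝓞 K) // Ideal.absNorm v.asIdeal ≤ 2 ^ j} ≤
        (Nat.card {v : HeightOneSpectrum (𝓞 K) // Ideal.absNorm v.asIdeal ≤ 2 ^ j ∧
          Good v u} : ℝ)} : ℝ) <
      (1 - η) * Nat.card {j : ℕ // Q₀ ≤ 2 ^ j ∧ 2 ^ j ≤ Q₁}}.ncard : ℝ) ≤
    C * ((X : ℝ) ^ r * Q₁)

end Pool.Agent.Results.MP_17d720_ag.MovingBranchPoint

open Pool.Agent.Results.MP_17d720_ag.MovingBranchPoint

namespace Pool.Agent.Results.MP_17d720_ag.MovingBranchPoint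

theorem result (K : Type) [Field K] [NumberField K] (r g : ℕ) (hg : 1 ≤ g)
    (f φ : (Par K r)[X]) (hdeg : f.natDegree = 2 * g)
    (hf : (f.map (algebraMap (Par K r) (FractionRing (Par K r)))).Separable)
    (hφ : 1 ≤ φ.natDegree) (G : MvPolynomial (Fin g × Fin g) (Par K r)[X]) (hG : G ≠ 0) :
    FewClasses (Good g f φ G) ∧ AllScales (Good g f φ G) ∧ MostScales (Good g f φ G) :=
  Pool.Agent.Helper62.BX.conc Pool.Agent.Helper62.BX.xCount
    Pool.Agent.Helper62.BX.xSieve Pool.Agent.Helper62.BX.xMost K r
    (Pool.Agent.Helper62.BX.GoodB g f φ G) (Pool.Agent.Helper62.BX.perB g f φ G)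
    (Pool.Agent.Helper62.BX.xB K r g hg f φ hdeg hf hφ G hG)

end Pool.Agent.Results.MP_17d720_ag.MovingBranchPoint
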