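import Pool.Agent.Helper24.SE.Thick
import Pool.Agent.Helper24.SE.Dens

/-!
# Ordinary reduction and exceptional sets with a power saving

Let `C` be the category of Chow motives over `ℚ` with rational coefficients. For a motive `M`, a number field `L`
and a finite place `v` of `L` we say that `M` is ordinary at `v` if the `ℓ`-adic realisations of `M`, `v ∤ ℓ`, are
unramified at `v`, the `p`-adic one is crystalline at `v`, `v ∣ p`, and for all `i` the Newton polygon of the
crystalline realisation of `H^i(M)` at `v` is the Hodge polygon of `H^i(M)`. For all `v` outside a finite set and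
`M = h(X)` this says that `X_L` has good ordinary reduction at `v` (Bloch and Kato). We call `M` potentially
ordinary (`Ord`) if there is a number field `L` such that the places `v` of `L` where `M` is ordinary have
density one.

Let `Var` be the set of the smooth projective varieties `V` over number fields, let `Q V` be the statement of Q1
for `V`, that is `V` has good ordinary reduction at a set of places of positive (lower) density, and let `Pot V` be
the stronger statement that after a finite extension of the base field, `V` has good ordinary reduction at a set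
of places of density one. For elliptic curves, abelian surfaces and K3 surfaces `Pot V` is known.

For a separated scheme `X` of finite type over `ℚ` let `W(X)` be its weight complex with compact supports
(Gillet, Soulé), a bounded complex in `C`, well defined up to homotopy. For `F ∈ ℤ[x_1, …, x_r]` let `D(F)` be the
complement of the (singular, reducible) hypersurface `F = 0` in the affine space over `ℚ`. We call `F` an
exception if it is false that, in the homotopy category, `W(D(F))` is a direct summand of a complex of
potentially ordinary motives. Let `Box(D, B)` be the finite set of the `F` of degree at most `D` in each variable,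
for which the sum of the absolute values of the coefficients is at most `B`, and `Exc(D, B)` the set of the
exceptions in the box.

**Theorem.** (1) `Pot V` is true for all `V` of dimension at most `d` if and only if the exceptional sets in
`d + 1` variables have a power saving: for some `ε > 0` there are infinitely many `D` and for these infinitely
many `B` such that `#Exc(D, B) ≤ #Box(D, B) ^ (1 - ε)`. Then Q1 is true for all `V` of dimension at most `d`.

(2) `Pot V` is true for all `V` if and only if the exceptional sets in `r` variables have a power saving, for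
infinitely many `r`. Then Q1 is true.

(3) A zero–one law: if there is one exception in `r` variables, then for every `ε > 0`, for all large
`D` and all large `B` (depending on `D`) there are more than `#Box(D, B) ^ (1 - ε)` exceptions.

(4) If the hypersurfaces `F = 0` and `G = 0` in the affine space over `ℚ` are disjoint and `F` is an exception,
then `G` or `F G` is an exception.
-/

set_option autoImplicit false
set_option linter.checkUnivs false
set_option linter.unusedSectionVars false

open CategoryTheory Limits AlgebraicGeometry Filter Pool.Agent.Y116.UV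
  Pool.Agent.Q282.UM Pool.Agent.Q282.UK Pool.Agent.Helper62.EC Pool.Agent.Helper24.KD

open Pool.Agent.Helper24.SE (Box Exc Saving DensityOne)

universe v u

namespace Pool.Agent.Results.MP_17d720_ag.PowerSaving

/-- The complement `D(F) : F ≠ 0` in the affine space over `ℚ`. -/
noncomputable def princ {r : ℕ} (F : MvPolynomial (Fin r) ℤ) : Sch ℚ :=
  aff ℚ (Localization.Away (MvPolynomial.map (algebraMap ℤ ℚ) F))

/-- The category `C` of Chow motives over `ℚ`, with

* the motives `h(X)`, the Tate twists `N(n)` and the weight complexes `W(X)` (`Weights`);
* the number fields `L : Fld`, their finite places `v : Pl L` with the norms `norm L v = N v`, and the statements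
  `Ordi L v N`: the motive `N` is ordinary at the place `v` of `L`;
* the smooth projective varieties `V : Var` over number fields, their dimensions and the statements `Pot V`
  and `Q V`. -/
structure Mot where
  C : Type u
  [cat : Category.{v} C]
  [pre : Preadditive C]
  [zero : HasZeroObject C]
  [bin : HasBinaryBiproducts C]
  [fin : HasFiniteBiproducts C]
  D : Weights ℚ C
  Fld : Type
  Pl : Fld → Type
  norm : ∀ L : Fld, Pl L → ℕ
  Ordi : ∀ L : Fld, Pl L → C → Prop
  Var : Type
  dim : Var → ℕ
  Pot : Var → Prop
  Q : Var → Prop

attribute [instance] Mot.cat Mot.pre Mot.zero Mot.bin Mot.fin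

variable (M : Mot.{v, u})

/-- The places of `L` where `N` is ordinary have density one. -/
def OrdOver (L : M.Fld) (N : M.C) : Prop := DensityOne (M.norm L) {v | M.Ordi L v N}

/-- The motive `N` is potentially ordinary. -/
def Ord (N : M.C) : Prop := ∃ L : M.Fld, OrdOver M L N

/-- The known properties.

* `weight`: the weight complexes;
* `ordinary`: the motives which are ordinary at `v` are closed under finite sums and direct summands (the
  Newton polygon lies on or above the Hodge polygon, with the same end points);
* `places`, `field`: there are finitely many places of norm at most `x`; the set of all places of `ℚ` has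
  density one;
* `common`: extension of the field to the compositum of `L` and `L'`;
* `points`: the motives `h(Y)(n)`, `dim Y = 0`, are ordinary at almost all places;
* `model`: every `V` is a component of `X ⊗ K` for a smooth projective `X` over `ℚ` with `dim X = dim V` (`V`
  considered as a scheme over `ℚ`), and `Pot V` is true if `h(X)` is potentially ordinary;
* `fibre`: if `X` is smooth and projective over `ℚ` of dimension at most `d`, then `X` is a finite disjoint union
  of `V` in `Var` of dimension at most `d`, and `h(X)` is potentially ordinary if `Pot V` is true for these;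
* `positive`: `Pot V` implies Q1 for `V` (look at the places of the base field which are split in the
  extension). -/
structure Known : Prop where
  weight : IsWeightComplex M.D
  ordinary : ∀ (L : M.Fld) (v : M.Pl L), IsThick (M.Ordi L v)
  places : ∀ (L : M.Fld) (x : ℕ), ({v | M.norm L v ≤ x} : Set (M.Pl L)).Finite
  field : ∃ L : M.Fld, DensityOne (M.norm L) Set.univ
  common : ∀ L L' : M.Fld, ∃ L'' : M.Fld, ∀ N : M.C,
    (OrdOver M L N → OrdOver M L'' N) ∧ (OrdOver M L' N → OrdOver M L'' N)
  points : ∀ (n : ℤ) (Y : Sch ℚ), IsSmoothProjective Y → topologicalKrullDim Y.left ≤ (0 : ℕ) →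
    Ord M ((M.D.tw n).obj (M.D.h Y))
  model : ∀ V : M.Var, ∃ X : Sch ℚ, IsSmoothProjective X ∧
    topologicalKrullDim X.left ≤ M.dim V ∧ (Ord M (M.D.h X) → M.Pot V)
  fibre : ∀ (X : Sch ℚ) (d : ℕ), IsSmoothProjective X → topologicalKrullDim X.left ≤ d →
    (∀ V : M.Var, M.dim V ≤ d → M.Pot V) → Ord M (M.D.h X)
  positive : ∀ V : M.Var, M.Pot V → M.Q V

/-- `F` is an exception: it is false that `W(D(F))` is, up to homotopy, a direct summand of a complex of
potentially ordinary motives. -/
def Exception {r : ℕ} (F : MvPolynomial (Fin r) ℤ) : Prop :=
  ¬ TermsIn (Ord M) (M.D.W (princ F))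

variable {M} in
lemma thick_ord (hM : Known M) : IsThick (Ord M) where
  summand := by
    rintro N N' h ⟨L, hL⟩
    exact ⟨L, hL.mono (hM.places L) fun v hv => (hM.ordinary L v).summand h hv⟩
  zero N h := by
    obtain ⟨L, hL⟩ := hM.field
    exact ⟨L, hL.mono (hM.places L) fun v _ => (hM.ordinary L v).zero N h⟩
  sum N N' := by
    rintro ⟨L, hL⟩ ⟨L', hL'⟩
    obtain ⟨L'', h⟩ := hM.common L L'
    exact ⟨L'', (((h N).1 hL).inter (hM.places L'') ((h N').2 hL')).mono (hM.places L'')
      fun v hv => (hM.ordinary L'' v).sum N N' hv.1 hv.2⟩

/-- **Ordinary reduction and exceptional sets with a power saving.** See the explanations above. -/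
theorem result (M : Mot.{v, u}) (hM : Known M) :
    -- (1) dimension at most `d`
    (∀ d : ℕ, ((∀ V : M.Var, M.dim V ≤ d → M.Pot V) ↔ Saving (r := d + 1) (Exception M)) ∧
      (Saving (r := d + 1) (Exception M) → ∀ V : M.Var, M.dim V ≤ d → M.Q V)) ∧
    -- (2) all dimensions
    (((∀ V : M.Var, M.Pot V) ↔ ∃ᶠ r : ℕ in atTop, Saving (r := r) (Exception M)) ∧
      ((∃ᶠ r : ℕ in atTop, Saving (r := r) (Exception M)) → ∀ V : M.Var, M.Q V)) ∧
    -- (3) the zero-one law
    (∀ (r : ℕ) (G : MvPolynomial (Fin r) ℤ), Exception M G → ∀ ε : ℝ, 0 < ε →
      ∀ᶠ D : ℕ in atTop, ∀ᶠ B : ℕ in atTop,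
        ((Box r D B).ncard : ℝ) ^ (1 - ε) < ((Exc (r := r) (Exception M) D B).ncard : ℝ)) ∧
    -- (4) disjoint hypersurfaces
    ∀ (r : ℕ) (F G : MvPolynomial (Fin r) ℤ),
      Ideal.span {MvPolynomial.map (algebraMap ℤ ℚ) G} ⊔
        Ideal.span {MvPolynomial.map (algebraMap ℤ ℚ) F} = ⊤ →
      Exception M F → Exception M G ∨ Exception M (F * G) := by
  have hT := thick_ord hM
  have hd : ∀ d : ℕ, (∀ V : M.Var, M.dim V ≤ d → M.Pot V) ↔
      ∀ Y : Sch ℚ, IsSmoothProjective Y → topologicalKrullDim Y.left ≤ d →
        Ord M (M.D.h Y) := by
    intro d
    constructor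
    · exact fun h Y hY hd => hM.fibre Y d hY hd h
    · intro h V hV
      obtain ⟨X, h1, h2, h3⟩ := hM.model V
      exact h3 (h X h1 (h2.trans (by exact_mod_cast hV)))
  have h1 : ∀ d : ℕ, (∀ V : M.Var, M.dim V ≤ d → M.Pot V) ↔
      Saving (r := d + 1) (Exception M) := fun d =>
    (hd d).trans (Pool.Agent.Helper24.SE.thick_dim hT hM.weight hM.points d)
  have h2 : (∀ V : M.Var, M.Pot V) ↔ ∃ᶠ r : ℕ in atTop, Saving (r := r) (Exception M) := by
    constructor
    · exact fun h => frequently_atTop.mpr fun a => ⟨a + 1, by omega, (h1 a).mp fun V _ => h V⟩
    · intro h V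
      obtain ⟨r, hr, hrV⟩ := (h.and_eventually (eventually_ge_atTop (M.dim V + 1))).exists
      obtain ⟨d, rfl⟩ : ∃ d, r = d + 1 := ⟨r - 1, by omega⟩
      exact (h1 d).mpr hr V (by omega)
  refine ⟨fun d => ⟨h1 d, fun h V hV => hM.positive V ((h1 d).mpr h V hV)⟩,
    ⟨h2, fun h V => hM.positive V (h2.mpr h V)⟩, fun r G hG ε hε => ?_, fun r F G hFG hF => ?_⟩
  · exact Pool.Agent.Helper24.SE.thick_full hT hM.weight hM.points hG hε
  · refine Pool.Agent.Helper24.SE.disj_compl (Pool.Agent.Helper24.SE.cls_tw hT hM.weight)
      (Pool.Agent.Helper24.SE.tw_space hT hM.weight hM.points r)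
      (MvPolynomial.map (algebraMap ℤ ℚ) F)
      (MvPolynomial.map (algebraMap ℤ ℚ) G) hFG hF |>.imp id fun h => ?_
    have h3 : princ (F * G) = aff ℚ (Localization.Away
        (MvPolynomial.map (algebraMap ℤ ℚ) F * MvPolynomial.map (algebraMap ℤ ℚ) G)) := by
      unfold princ
      rw [map_mul]
    unfold Exception
    rw [h3]
    exact h

end Pool.Agent.Results.MP_17d720_ag.PowerSaving
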